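import Pool.Agent.Q54.EM.StmE

/-!
# Project EM, job MXP: mixture inequality
-/

set_option autoImplicit false

namespace Pool.Agent.Q68.EM

open Finset Pool.Agent.Q54.EM

/-- the conditional weights -/
noncomputable def pc {ι : Type} (p x : ι → ℝ) (P : ℝ) : ι → ℝ :=
  fun i => if 0 < x i then p i / P else 0

theorem pc_nn {ι : Type} {p x : ι → ℝ} {P : ℝ} (hp : ∀ i, 0 ≤ p i) (hP : 0 < P) (i : ι) :
    0 ≤ pc p x P i := by
  unfold pc
  split_ifs
  · exact div_nonneg (hp i) hP.le
  · exact le_rfl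

theorem P_pc {ι : Type} {p x : ι → ℝ} {P : ℝ} (hP : 0 < P) (i : ι) :
    P * pc p x P i = if 0 < x i then p i else 0 := by
  unfold pc
  split_ifs
  · rw [mul_div_cancel₀ _ hP.ne']
  · rw [mul_zero]

theorem pc_sum {ι : Type} [Fintype ι] {p x : ι → ℝ} {P : ℝ} (hP : 0 < P)
    (hPs : P = ∑ i, (if 0 < x i then p i else 0)) : ∑ i, pc p x P i = 1 := by
  have h1 : P * ∑ i, pc p x P i = P := by
    rw [Finset.mul_sum, Finset.sum_congr rfl fun i _ => P_pc hP i]
    exact hPs.symm
  exact mul_left_cancel₀ hP.ne' (h1.trans (mul_one P).symm)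

theorem split {ι : Type} [Fintype ι] {p x : ι → ℝ} {P : ℝ} (hL : Law p x) (hP : 0 < P)
    (hPs : P = ∑ i, (if 0 < x i then p i else 0)) (g : ι → ℝ) (G : ℝ)
    (hg : ∀ i, x i = 0 → g i = G) :
    ∑ i, p i * g i = (1 - P) * G + P * ∑ i, pc p x P i * g i := by
  have h1 : ∀ i, p i * g i = (p i - if 0 < x i then p i else 0) * G +
      P * (pc p x P i * g i) := by
    intro i
    rw [← mul_assoc, P_pc hP]
    by_cases h : 0 < x i
    · rw [if_pos h]
      ring
    · rw [if_neg h, hg i (le_antisymm (not_lt.mp h) (hL.nn i))]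
      ring
  rw [Finset.sum_congr rfl fun i _ => h1 i, Finset.sum_add_distrib, ← Finset.sum_mul,
    Finset.sum_sub_distrib, hL.sum, ← hPs, ← Finset.mul_sum]

theorem shift {x : ℝ} (hx : 0 ≤ x) {f : ℝ → ℝ} (hf : ∀ s t : ℝ, 0 ≤ s → s ≤ t → f s ≤ f t) :
    ∀ s t : ℝ, 0 ≤ s → s ≤ t → f (s + x) ≤ f (t + x) :=
  fun s t hs hst => hf _ _ (by linarith) (by linarith)

section

variable {ι : Type} [Fintype ι] {p x : ι → ℝ} {P : ℝ}

theorem Ec_mono (hE : S_EEL) (hL : Law p x) (hP : 0 < P)
    (hPs : P = ∑ i, (if 0 < x i then p i else 0)) (n : ℕ) (f : ℝ → ℝ)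
    (hf : ∀ s t : ℝ, 0 ≤ s → s ≤ t → f s ≤ f t) :
    EE (pc p x P) x n f ≤ EE (pc p x P) x (n + 1) f := by
  have hpc := pc_nn (x := x) (fun i => (hL.pos i).le) hP
  have h0 : EE (pc p x P) x (n + 1) f =
      ∑ i, pc p x P i * EE (pc p x P) x n (fun s => f (s + x i)) := rfl
  have h1 : EE (pc p x P) x n f = ∑ i, pc p x P i * EE (pc p x P) x n f := by
    rw [← Finset.sum_mul, pc_sum hP hPs, one_mul]
  rw [h0]
  conv_lhs => rw [h1]
  refine Finset.sum_le_sum fun i _ => mul_le_mul_of_nonneg_left ?_ (hpc i)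
  refine (hE ι (pc p x P) x n).2.2.2.1 hpc hL.nn _ _ fun s hs => ?_
  exact hf _ _ hs (by linarith [hL.nn i])

theorem Ep_le (hE : S_EEL) (hL : Law p x) (hP : 0 < P)
    (hPs : P = ∑ i, (if 0 < x i then p i else 0)) (hP1 : P ≤ 1) (n : ℕ) : ∀ f : ℝ → ℝ,
    (∀ s t : ℝ, 0 ≤ s → s ≤ t → f s ≤ f t) → EE p x n f ≤ EE (pc p x P) x n f := by
  induction n with
  | zero =>
    intro f _
    exact le_rfl
  | succ n ih =>
    intro f hf
    have h0 : EE p x (n + 1) f = ∑ i, p i * EE p x n (fun s => f (s + x i)) := rfl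
    have h1 : ∑ i, p i * EE p x n (fun s => f (s + x i)) ≤
        ∑ i, p i * EE (pc p x P) x n (fun s => f (s + x i)) :=
      Finset.sum_le_sum fun i _ => mul_le_mul_of_nonneg_left (ih _ (shift (hL.nn i) hf))
        (hL.pos i).le
    have h2 := split hL hP hPs (fun i => EE (pc p x P) x n (fun s => f (s + x i)))
      (EE (pc p x P) x n f) (fun i hi => by simp only [hi, add_zero])
    have h3 : ∑ i, pc p x P i * EE (pc p x P) x n (fun s => f (s + x i)) =
      EE (pc p x P) x (n + 1) f := rfl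
    have h4 := Ec_mono hE hL hP hPs n f hf
    rw [h0]
    refine h1.trans ?_
    rw [h2, h3]
    nlinarith

end

theorem mxp : S_EEL → S_MXP := by
  intro hE ι _ p x P hL hP hPs
  have hP1 : P ≤ 1 := by
    rw [hPs, ← hL.sum]
    refine Finset.sum_le_sum fun i _ => ?_
    split_ifs
    · exact le_rfl
    · exact (hL.pos i).le
  have hpc := pc_nn (x := x) (fun i => (hL.pos i).le) hP
  have key : ∀ (n : ℕ) (f : ℝ → ℝ), (∀ s t : ℝ, 0 ≤ s → s ≤ t → f s ≤ f t) →
      EE p x (n + 1) f ≤ P ^ (n + 1) * EE (pc p x P) x (n + 1) f +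
        (1 - P ^ (n + 1)) * EE (pc p x P) x n f := by
    intro n
    induction n with
    | zero =>
      intro f hf
      have h0 : EE p x (0 + 1) f = ∑ i, p i * f (0 + x i) := rfl
      have h2 := split hL hP hPs (fun i => f (0 + x i)) (f 0)
        (fun i hi => by simp only [hi, add_zero])
      have h3 : EE (pc p x P) x (0 + 1) f = ∑ i, pc p x P i * f (0 + x i) := rfl
      have h4 : EE (pc p x P) x 0 f = f 0 := rfl
      rw [h0, h2, h3, h4, zero_add, pow_one]
      linarith
    | succ n ih =>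
      intro f hf
      have h0 : EE p x (n + 1 + 1) f = ∑ i, p i * EE p x (n + 1) (fun s => f (s + x i)) := rfl
      have h2 := split hL hP hPs (fun i => EE p x (n + 1) (fun s => f (s + x i)))
        (EE p x (n + 1) f) (fun i hi => by simp only [hi, add_zero])
      have h3 := Ep_le hE hL hP hPs hP1 (n + 1) f hf
      have h4 : ∑ i, pc p x P i * EE p x (n + 1) (fun s => f (s + x i)) ≤
          ∑ i, pc p x P i * (P ^ (n + 1) * EE (pc p x P) x (n + 1) (fun s => f (s + x i)) +
            (1 - P ^ (n + 1)) * EE (pc p x P) x n (fun s => f (s + x i))) :=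
        Finset.sum_le_sum fun i _ => mul_le_mul_of_nonneg_left (ih _ (shift (hL.nn i) hf)) (hpc i)
      have h5 : ∑ i, pc p x P i * (P ^ (n + 1) * EE (pc p x P) x (n + 1) (fun s => f (s + x i)) +
            (1 - P ^ (n + 1)) * EE (pc p x P) x n (fun s => f (s + x i))) =
          P ^ (n + 1) * EE (pc p x P) x (n + 1 + 1) f +
            (1 - P ^ (n + 1)) * EE (pc p x P) x (n + 1) f := by
        have e1 : EE (pc p x P) x (n + 1 + 1) f =
          ∑ i, pc p x P i * EE (pc p x P) x (n + 1) (fun s => f (s + x i)) := rfl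
        have e2 : EE (pc p x P) x (n + 1) f =
          ∑ i, pc p x P i * EE (pc p x P) x n (fun s => f (s + x i)) := rfl
        rw [e1, e2, Finset.mul_sum, Finset.mul_sum, ← Finset.sum_add_distrib]
        exact Finset.sum_congr rfl fun i _ => by ring
      rw [h5] at h4
      rw [h0, h2]
      have h6 := mul_le_mul_of_nonneg_left h4 hP.le
      have h7 := mul_le_mul_of_nonneg_left h3 (by linarith : (0 : ℝ) ≤ 1 - P)
      have h8 : P ^ (n + 1 + 1) = P * P ^ (n + 1) := by ring
      rw [h8]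
      linarith
  exact key

end Pool.Agent.Q68.EM
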