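import Pool.Agent.Q54.EM.StmG

/-!
# Project EM, job NUM: an optimal law gives `Num`
-/

set_option autoImplicit false

namespace Pool.Agent.Q68.EM

open Finset Pool.Agent.Q54.EM

theorem va_eq {ι : Type} [Fintype ι] (p x : ι → ℝ) (hp : ∑ i, p i = 1) :
    va p x = ∑ i, p i * (x i - mu p x) ^ 2 := by
  have h1 : ∀ i, p i * (x i - mu p x) ^ 2 =
      p i * x i ^ 2 - 2 * mu p x * (p i * x i) + mu p x ^ 2 * p i := fun i => by ring
  rw [Finset.sum_congr rfl fun i _ => h1 i, Finset.sum_add_distrib, Finset.sum_sub_distrib,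
    ← Finset.mul_sum, ← Finset.mul_sum, hp]
  unfold va mu
  ring

theorem num : S_TAF → S_PLF → S_XX → S_P0 → S_E3 → S_LH → S_HL → S_LMB → S_POS → S_NUM := by
  intro hTA hPL hXX hP0 hE3 hLH hHL hLM hPO ι _ p x k r l hk hrc ho
  have hlaw := ho.law
  have hr0 : 0 < r := hrc.1
  have hr1 : r < 1 := hrc.2.1
  have hm := ho.m
  have hm0 : 0 < mu p x := by rw [hm]; exact hr0
  have hm1 : mu p x < 1 := by rw [hm]; exact hr1
  obtain ⟨hlam, hxl⟩ := hLM ι p x k l (by omega) hlaw hm1 ho.kk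
  rw [hm] at hlam
  obtain ⟨hpos, hb, -, -⟩ := hPO ι p x hlaw
  have hW : 0 < PR p x k k := hpos k k le_rfl (by omega) hm1
  have hw1 : 0 < PR p x (k - 1) k := hpos (k - 1) k (by omega) (by omega) hm1
  have hl0 : 0 < l := ho.kk.1
  have hlampos : 0 < lam k p x := div_pos hW hw1
  have hrl : r < l := by
    rw [hlam] at hlampos
    have h1 : r / l < 1 := by linarith
    rwa [div_lt_one hl0] at h1
  have hWw : PR p x k k = PR p x (k - 1) k * (1 - r / l) := by
    rw [← hlam]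
    unfold lam
    rw [mul_div_cancel₀ _ hw1.ne']
  have hva : 0 < va p x := by
    obtain ⟨i, hi⟩ := ho.z
    rw [va_eq p x hlaw.sum]
    refine Finset.sum_pos' (fun j _ => mul_nonneg (hlaw.pos j).le (sq_nonneg _))
      ⟨i, Finset.mem_univ i, mul_pos (hlaw.pos i) ?_⟩
    rw [hi, hm]
    have : (0 - r) ^ 2 = r ^ 2 := by ring
    rw [this]
    positivity
  obtain ⟨g1, g2, g3, g4, g5⟩ := hHL ι p x k l (by omega) hlaw hm0 hm1 ho.kk
  have f1 := hLH ι p x k (by omega) hlaw hm1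
  have f2 := hXX ι p x k l (by omega) hlaw hm0 hm1 ho.kk hva
  have f3 := hP0 ι p x k l (by omega) hlaw hm0 hm1 ho.kk hva
  have f4 := hE3 ι p x k (by omega) hlaw
  have f5 := hTA ι p x k l (by omega) hlaw hm0 hm1 ho.kk hva
  have f6 := hPL ι p x k l (by omega) hlaw hm0 hm1 ho.kk hva
  have e1 : 1 - (1 - r / l) = r / l := by ring
  rw [hm, hlam] at f1
  rw [hlam] at f2
  unfold BB at f3
  rw [hm, hlam] at f3
  rw [hm] at f4
  rw [hm, hlam, e1] at f5
  refine ⟨⟨hk, hrc, hl0, hrl, g2, g1, hW, ho.lt, hWw, (hb (k - 1) k).2, f1, f2, f3, ?_, f5, ?_⟩,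
    hxl, hva, hlam⟩
  · have h1 : GP p x k k = PR p x k k * hh k p x := by
      unfold hh
      rw [mul_div_cancel₀ _ hW.ne']
    rw [← h1]
    exact f4
  · intro c nu h1 h2 h3 h4 h5 h6 h7 h8
    have e2 : 1 + (l / hh k p x - 1) = l / hh k p x := by ring
    have h9 := f6 (r / l) (l / hh k p x - 1) (1 - k * (1 - r) / hh k p x) c nu
      (by rw [hlam]; ring) rfl (by rw [hm]) h1 h2 h3 (by rw [e2]; exact h4)
      (by rw [e2]; exact h5) (by rw [e2]; exact h6) (by rw [e2]; exact h7) h8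
    exact h9

end Pool.Agent.Q68.EM
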