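import Pool.Agent.Q54.EM.StmG

/-!
# Project EM, job STA: starting feasible point
-/

set_option autoImplicit false

namespace Pool.Agent.Q68.EM

open Finset Pool.Agent.Q54.EM

/-- the extended weights -/
def qx {ι : Type} (p : ι → ℝ) : Option (Option ι) → ℝ
  | none => 0
  | some none => 0
  | some (some i) => p i

/-- the extended values -/
noncomputable def yx {ι : Type} (k : ℝ) (x : ι → ℝ) : Option (Option ι) → ℝ
  | none => 0
  | some none => k
  | some (some i) => min (x i) k

theorem sum_oo {ι : Type} [Fintype ι] (f : Option (Option ι) → ℝ) :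
    ∑ i, f i = f none + (f (some none) + ∑ i, f (some (some i))) := by
  rw [Fintype.sum_option, Fintype.sum_option]

theorem EE_ext {ι : Type} [Fintype ι] (p x : ι → ℝ) (k : ℝ) (n : ℕ) : ∀ f : ℝ → ℝ,
    EE (qx p) (yx k x) n f = EE p (fun i => min (x i) k) n f := by
  induction n with
  | zero =>
    intro f
    rfl
  | succ n ih =>
    intro f
    change ∑ i, qx p i * EE (qx p) (yx k x) n (fun s => f (s + yx k x i)) =
      ∑ i, p i * EE p (fun i => min (x i) k) n (fun s => f (s + min (x i) k))
    rw [sum_oo]
    have h1 : qx p none = 0 := rfl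
    have h2 : qx p (some none) = 0 := rfl
    rw [h1, h2, zero_mul, zero_mul, zero_add, zero_add]
    refine Finset.sum_congr rfl fun i _ => ?_
    have h3 : qx p (some (some i)) = p i := rfl
    have h4 : yx k x (some (some i)) = min (x i) k := rfl
    rw [h3, h4, ih]

theorem PR_min (hT : S_TUP) {ι : Type} [Fintype ι] (p x : ι → ℝ) (hx : ∀ i, 0 ≤ x i) (k : ℝ)
    (hk : 0 ≤ k) (n : ℕ) : PR p (fun i => min (x i) k) n k = PR p x n k := by
  unfold PR
  rw [hT, hT]
  unfold TE
  refine Finset.sum_congr rfl fun v _ => ?_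
  congr 1
  have h1 : (∑ i, min (x (v i)) k < k) ↔ (∑ i, x (v i) < k) := by
    constructor
    · intro h
      have h2 : ∀ i, min (x (v i)) k = x (v i) := by
        intro i
        have h3 : min (x (v i)) k ≤ ∑ j, min (x (v j)) k :=
          Finset.single_le_sum (f := fun j => min (x (v j)) k)
            (fun j _ => le_min (hx _) hk) (Finset.mem_univ i)
        have h4 : min (x (v i)) k < k := lt_of_le_of_lt h3 h
        rcases min_choice (x (v i)) k with h5 | h5
        · exact h5
        · rw [h5] at h4
          exact absurd h4 (lt_irrefl _)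
      rw [← Finset.sum_congr rfl fun i _ => h2 i]
      exact h
    · intro h
      exact lt_of_le_of_lt (Finset.sum_le_sum fun i _ => min_le_left _ _) h
  show (if ∑ i, min (x (v i)) k < k then (1 : ℝ) else 0) = if ∑ i, x (v i) < k then (1 : ℝ) else 0
  by_cases h : ∑ i, x (v i) < k
  · rw [if_pos h, if_pos (h1.mpr h)]
  · rw [if_neg h, if_neg fun h' => h (h1.mp h')]

theorem PR_nn (hT : S_TUP) {ι : Type} [Fintype ι] (p x : ι → ℝ) (hp : ∀ i, 0 ≤ p i) (n : ℕ)
    (y : ℝ) : 0 ≤ PR p x n y := by
  unfold PR
  rw [hT]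
  unfold TE
  refine Finset.sum_nonneg fun v _ => mul_nonneg (Finset.prod_nonneg fun i _ => hp _) ?_
  show 0 ≤ if ∑ i, x (v i) < y then (1 : ℝ) else 0
  split_ifs
  · exact zero_le_one
  · exact le_rfl

theorem sta : S_MXT → S_TUP → S_EEL → S_STA := by
  intro hM hT _ ι _ p x k r hk hr0 hr1 hp hp1 hx hm
  classical
  have hk1 : (1 : ℝ) ≤ k := by exact_mod_cast hk
  set m' : ℝ := ∑ i, p i * min (x i) k with hm'
  have hm1 : m' ≤ r := by
    rw [hm', ← hm]
    unfold mu
    exact Finset.sum_le_sum fun i _ => mul_le_mul_of_nonneg_left (min_le_left _ _) (hp i)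
  have hden : 0 < (k : ℝ) - m' := by linarith
  set s : ℝ := (r - m') / (k - m') with hs
  have hs0 : 0 ≤ s := div_nonneg (by linarith) hden.le
  have hs1 : s ≤ 1 := by
    rw [hs, div_le_one hden]
    linarith
  have hq0 : ∀ i, 0 ≤ qx p i := by
    rintro (_ | _ | i)
    · exact le_rfl
    · exact le_rfl
    · exact hp i
  have hqs : ∑ i, qx p i = 1 := by
    rw [sum_oo]
    have h1 : qx p none = 0 := rfl
    have h2 : qx p (some none) = 0 := rfl
    rw [h1, h2, zero_add, zero_add]
    exact hp1
  have hqm : ∑ i, qx p i * yx k x i = m' := by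
    rw [sum_oo]
    have h1 : qx p none = 0 := rfl
    have h2 : qx p (some none) = 0 := rfl
    rw [h1, h2, zero_mul, zero_mul, zero_add, zero_add]
    rfl
  have hy0 : ∀ i, 0 ≤ yx k x i := by
    rintro (_ | _ | i)
    · exact le_rfl
    · exact le_trans zero_le_one hk1
    · exact le_min (hx i) (le_trans zero_le_one hk1)
  refine ⟨fun i => (1 - s) * qx p i + if i = some none then s else 0, yx k x, ⟨?_, ?_, hy0, ?_,
    rfl, rfl, ?_⟩, ?_⟩
  · intro i
    refine add_nonneg (mul_nonneg (by linarith) (hq0 i)) ?_
    split_ifs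
    · exact hs0
    · exact le_rfl
  · rw [Finset.sum_add_distrib, ← Finset.mul_sum, hqs, Finset.sum_ite_eq' Finset.univ,
      if_pos (Finset.mem_univ _)]
    ring
  · rintro (_ | _ | i)
    · exact le_trans zero_le_one hk1
    · exact le_rfl
    · exact min_le_right _ _
  · unfold mu
    have h1 : ∀ i : Option (Option ι), ((1 - s) * qx p i + if i = some none then s else 0) *
        yx k x i = (1 - s) * (qx p i * yx k x i) + (if i = some none then s * k else 0) := by
      intro i
      split_ifs with h
      · subst h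
        have h2 : yx (k : ℝ) x (some none) = k := rfl
        rw [h2]
        ring
      · ring
    rw [Finset.sum_congr rfl fun i _ => h1 i, Finset.sum_add_distrib, ← Finset.mul_sum, hqm,
      Finset.sum_ite_eq' Finset.univ, if_pos (Finset.mem_univ _), hs]
    field_simp
    ring
  · rw [hM (Option (Option ι)) (qx p) (yx k x) k (some none) s k hy0 rfl]
    have h1 : PR (qx p) (yx k x) k k = PR p x k k := by
      rw [← PR_min hT p x hx k (le_trans zero_le_one hk1) k]
      unfold PR
      exact EE_ext p x k k _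
    rw [h1]
    have h2 : (1 - s) ^ k ≤ 1 := pow_le_one₀ (by linarith) (by linarith)
    exact mul_le_of_le_one_left (PR_nn hT p x hp k k) h2

end Pool.Agent.Q68.EM
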