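import Pool.Agent.Q54.EM.StmE

/-!
# Project EM, job W2: the zone `r / l > 0.62`
-/

set_option autoImplicit false

namespace Pool.Agent.Q68.EM.W

open Finset Pool.Agent.Q54.EM

theorem EE_id (hE : S_EEL) {ι : Type} [Fintype ι] (p x : ι → ℝ) (hp : ∑ i, p i = 1) (n : ℕ) :
    EE p x n (fun s => s) = n * ∑ i, p i * x i := by
  induction n with
  | zero =>
    have h0 : EE p x 0 (fun s => s) = 0 := rfl
    rw [h0, Nat.cast_zero, zero_mul]
  | succ n ih =>
    have h0 : EE p x (n + 1) (fun s => s) = ∑ i, p i * EE p x n (fun s => s + x i) := rfl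
    have h1 : ∀ i, EE p x n (fun s => s + x i) = n * ∑ j, p j * x j + x i := by
      intro i
      rw [(hE ι p x n).1 (fun s => s) (fun _ => x i), ih, (hE ι p x n).2.2.2.2.1 hp]
    rw [h0, Finset.sum_congr rfl fun i _ => by rw [h1 i]]
    simp only [mul_add]
    rw [Finset.sum_add_distrib, ← Finset.sum_mul, hp]
    push_cast
    ring

theorem EE_ge (hE : S_EEL) {ι : Type} [Fintype ι] (p x : ι → ℝ) (hp : ∑ i, p i = 1) (n : ℕ)
    (y : ℝ) : EE p x n (fun s => if y ≤ s then 1 else 0) = 1 - PR p x n y := by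
  have h1 := (hE ι p x n).2.1 (fun _ => 1) (fun s => if s < y then 1 else 0)
  rw [(hE ι p x n).2.2.2.2.1 hp] at h1
  unfold PR
  rw [← h1]
  congr 1
  funext s
  by_cases h : y ≤ s
  · rw [if_pos h, if_neg (not_lt.mpr h), sub_zero]
  · rw [if_neg h, if_pos (not_le.mp h), sub_self]

theorem EE_pos (hE : S_EEL) {ι : Type} [Fintype ι] (p x : ι → ℝ) (hp : ∑ i, p i = 1) (n : ℕ)
    (y : ℝ) : EE p x n (fun s => max (s - y) 0) = GP p x n y + (n * (∑ i, p i * x i) - y) := by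
  have h1 := (hE ι p x n).1 (fun s => max (y - s) 0) (fun s => s - y)
  have h2 := (hE ι p x n).2.1 (fun s => s) (fun _ => y)
  rw [(hE ι p x n).2.2.2.2.1 hp, EE_id hE p x hp] at h2
  rw [h2] at h1
  unfold GP
  rw [← h1]
  congr 1
  funext s
  rcases le_total s y with h | h
  · rw [max_eq_right (by linarith), max_eq_left (by linarith)]
    ring
  · rw [max_eq_left (by linarith), max_eq_right (by linarith)]
    ring

theorem w2 : S_KAP → S_THE → S_MXP → S_LZ → S_CS → S_EEL → S_POS → S_W2 := by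
  intro hK hT hM hL hC hE _ ι _ p x k r l hk hrc ho hxl hl hsm
  obtain ⟨ha0, ha1, -, -, hT1, hT2, -, -, hr92⟩ := hC k r hk hrc
  have hlaw := ho.law
  have hr0 : 0 < r := hrc.1
  have hr1 : r < 1 := hrc.2.1
  have hkR : (6 : ℝ) ≤ k := by exact_mod_cast hk
  have hlz := hL ι p x k r l (by omega) hlaw ho.m hr1 ho.kk
  have hb1 := ho.b1
  obtain ⟨P, hP⟩ : ∃ P, P = ∑ i, (if 0 < x i then p i else 0) := ⟨_, rfl⟩
  rw [← hP] at hlz hb1
  obtain ⟨V, hV⟩ : ∃ V, V = ∑ i, (if 0 < x i then p i * (x i - 1) ^ 2 else 0) := ⟨_, rfl⟩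
  rw [← hV] at hlz
  have hV0 : 0 ≤ V := by
    rw [hV]
    refine Finset.sum_nonneg fun i _ => ?_
    split_ifs
    · exact mul_nonneg (hlaw.pos i).le (sq_nonneg _)
    · exact le_rfl
  have hkV : 0 ≤ (k : ℝ) * V := mul_nonneg (by linarith) hV0
  have hP91 : 91 / 100 ≤ P := by
    have h1 : (k : ℝ) * (r - P) ≤ 6 / 100 := by linarith
    have h2 : 6 * (r - P) ≤ k * (r - P) := mul_le_mul_of_nonneg_right hkR (by linarith)
    linarith
  have hP0 : 0 < P := by linarith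
  obtain ⟨q, hq⟩ : ∃ q : ι → ℝ, q = fun i => if 0 < x i then p i / P else 0 := ⟨_, rfl⟩
  have hPq : ∀ i, P * q i = if 0 < x i then p i else 0 := by
    intro i
    rw [hq]
    show P * (if 0 < x i then p i / P else 0) = _
    split_ifs
    · rw [mul_div_cancel₀ _ hP0.ne']
    · rw [mul_zero]
  have hq0 : ∀ i, 0 ≤ q i := by
    intro i
    rw [hq]
    show 0 ≤ (if 0 < x i then p i / P else 0)
    split_ifs
    · exact div_nonneg (hlaw.pos i).le hP0.le
    · exact le_rfl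
  have hq1 : ∑ i, q i = 1 := by
    have h1 : P * ∑ i, q i = P := by
      rw [Finset.mul_sum, Finset.sum_congr rfl fun i _ => hPq i]
      exact hP.symm
    exact mul_left_cancel₀ hP0.ne' (h1.trans (mul_one P).symm)
  have hqm : P * ∑ i, q i * x i = r := by
    rw [Finset.mul_sum, ← ho.m]
    unfold mu
    refine Finset.sum_congr rfl fun i _ => ?_
    rw [← mul_assoc, hPq]
    by_cases h : 0 < x i
    · rw [if_pos h]
    · have : x i = 0 := le_antisymm (not_lt.mp h) (hlaw.nn i)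
      rw [this, mul_zero, mul_zero]
  have hqv : P * ∑ i, q i * (x i - 1) ^ 2 = V := by
    rw [Finset.mul_sum, hV]
    refine Finset.sum_congr rfl fun i _ => ?_
    rw [← mul_assoc, hPq]
    split_ifs
    · rfl
    · rw [zero_mul]
  obtain ⟨d, hd⟩ : ∃ d, d = ∑ i, q i * x i - 1 := ⟨_, rfl⟩
  have hm : ∑ i, q i * x i = 1 + d := by linarith
  have hPd : P * (1 + d) = r := by rw [← hm]; exact hqm
  have hd0 : 0 ≤ d := by
    by_contra hneg
    push Not at hneg
    nlinarith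
  have hv : (k : ℝ) * (∑ i, q i * (x i - 1) ^ 2 + (∑ i, q i * x i - 1)) ≤ 66 / 1000 := by
    rw [← hd]
    obtain ⟨v2, hv2⟩ : ∃ v2, v2 = ∑ i, q i * (x i - 1) ^ 2 := ⟨_, rfl⟩
    rw [← hv2] at hqv ⊢
    have h1 : P * (k * (v2 + d)) ≤ 6 / 100 := by
      have h2 : P * (k * (v2 + d)) = k * (P * v2) + k * (P * (1 + d) - P) := by ring
      rw [h2, hqv, hPd]
      linarith
    by_contra hcon
    push Not at hcon
    nlinarith
  have hv20 : 0 ≤ ∑ i, q i * (x i - 1) ^ 2 :=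
    Finset.sum_nonneg fun i _ => mul_nonneg (hq0 i) (sq_nonneg _)
  have hkd : (k : ℝ) * d ≤ 66 / 1000 := by
    rw [← hd] at hv
    have : 0 ≤ (k : ℝ) * ∑ i, q i * (x i - 1) ^ 2 := mul_nonneg (by linarith) hv20
    linarith
  have hkd0 : 0 ≤ (k : ℝ) * d := mul_nonneg (by linarith) hd0
  -- the two tail lemmas
  have hkap := hK ι q x k hq0 hq1 hlaw.nn (by rw [hm]; linarith) hv k k le_rfl (by linarith)
  have hthe := hT ι q x k hq0 hq1 hlaw.nn (fun i _ => (hxl i).trans hl) (by rw [hm]; linarith) hv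
    (k - 1) k (by omega) (by
      rw [Nat.cast_sub (by omega), Nat.cast_one]
      linarith)
  have hkk : k - 1 + 1 = k := by omega
  rw [hkk, EE_ge hE q x hq1, EE_pos hE q x hq1, hm] at hthe
  have hmxp := hM ι p x P hlaw hP0 hP (k - 1) (fun s => if (k : ℝ) ≤ s then 1 else 0) (by
    intro s t _ hst
    show (if (k : ℝ) ≤ s then (1 : ℝ) else 0) ≤ if (k : ℝ) ≤ t then (1 : ℝ) else 0
    by_cases h : (k : ℝ) ≤ s
    · rw [if_pos h, if_pos (h.trans hst)]
    · rw [if_neg h]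
      split_ifs
      · exact zero_le_one
      · exact le_rfl)
  rw [← hq, hkk, EE_ge hE p x hlaw.sum, EE_ge hE q x hq1, EE_ge hE q x hq1] at hmxp
  have hg0 : 0 ≤ PR q x k k := by
    have h1 := (hE ι q x k).2.2.2.1 hq0 hlaw.nn (fun _ => 0) (fun s => if s < k then 1 else 0)
      (fun s _ => by
        show (0 : ℝ) ≤ if s < (k : ℝ) then (1 : ℝ) else 0
        split_ifs
        · exact zero_le_one
        · exact le_rfl)
    rw [(hE ι q x k).2.2.2.2.1 hq1] at h1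
    exact h1
  obtain ⟨g, hg⟩ : ∃ g, g = PR q x k k := ⟨_, rfl⟩
  rw [← hg] at hkap hmxp hg0
  obtain ⟨h1, hh1⟩ : ∃ h1, h1 = 1 - PR q x (k - 1) k := ⟨_, rfl⟩
  rw [← hh1] at hthe hmxp
  have hthe' : h1 ≤ 99 / 100 * g + 66 / 100 * (k * d) := by
    have e1 : (k : ℝ) * (1 + d) - k = k * d := by ring
    rw [e1] at hthe
    linarith
  -- powers
  have hPk1 : P ^ k * (1 + k * d) ≤ r ^ k := by
    rw [← hPd, mul_pow]
    exact mul_le_mul_of_nonneg_left (one_add_mul_le_pow (by linarith) k) (pow_nonneg hP0.le k)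
  have hPk2 : 1 / 2 ≤ P ^ k := by
    have e1 : r * (1 - d) ≤ P := by
      rw [← hPd]
      nlinarith [mul_nonneg hP0.le (mul_nonneg hd0 hd0)]
    have hd1 : d ≤ 66 / 1000 := by nlinarith
    have e2 : (r * (1 - d)) ^ k ≤ P ^ k := pow_le_pow_left₀ (mul_nonneg hr0.le (by linarith)) e1 k
    have e3 : 1 + (k : ℝ) * (-d) ≤ (1 + -d) ^ k := one_add_mul_le_pow (by linarith) k
    have e4 : 6321 / 10000 ≤ r ^ k := by linarith
    have e5 : 934 / 1000 ≤ (1 - d) ^ k := by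
      rw [sub_eq_add_neg]
      linarith
    have e6 : 6321 / 10000 * (934 / 1000) ≤ r ^ k * (1 - d) ^ k :=
      mul_le_mul e4 e5 (by norm_num) (by linarith)
    rw [mul_pow] at e2
    linarith
  have hPk3 : P ^ k ≤ 1 := pow_le_one₀ hP0.le (by linarith)
  obtain ⟨Q, hQ⟩ : ∃ Q, Q = P ^ k := ⟨_, rfl⟩
  rw [← hQ] at hPk1 hPk2 hPk3 hmxp
  have hfin : (1 - Q) * h1 ≤ (1 - Q) * (99 / 100 * g + 66 / 100 * (k * d)) :=
    mul_le_mul_of_nonneg_left hthe' (by linarith)
  have hlt := ho.lt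
  have f1 : (1 - Q) * (99 / 100 * g) ≤ Q * g := by nlinarith
  have f2 : (1 - Q) * (66 / 100 * (k * d)) ≤ Q * (k * d) := by nlinarith
  have f3 : 1 - PR p x k k ≤ r ^ k := by
    calc 1 - PR p x k k ≤ Q * (1 - g) + (1 - Q) * h1 := hmxp
      _ ≤ Q * (1 - g) + (1 - Q) * (99 / 100 * g + 66 / 100 * (k * d)) := by linarith
      _ = Q - Q * g + (1 - Q) * (99 / 100 * g) + (1 - Q) * (66 / 100 * (k * d)) := by ring
      _ ≤ Q - Q * g + Q * g + Q * (k * d) := by linarith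
      _ = Q * (1 + k * d) := by ring
      _ ≤ r ^ k := hPk1
  linarith

end Pool.Agent.Q68.EM.W

namespace Pool.Agent.Q68.EM

open Pool.Agent.Q54.EM

theorem w2 : S_KAP → S_THE → S_MXP → S_LZ → S_CS → S_EEL → S_POS → S_W2 := W.w2

end Pool.Agent.Q68.EM
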