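import Pool.Agent.Q45.EM.StmB

/-!
# Project EM (helper45), job KPR
-/

set_option autoImplicit false
set_option linter.all false

open scoped Classical

namespace Pool.Agent.Q68.EM.Kpr

open Pool.Agent.Q45.EM

section

variable {R M : Type} [Fintype R] [AddCommGroup M] [Module ℤ_[2] M]

/-- the values, corrected -/
noncomputable def k1 (κ : M →+ (R → ZMod 2)) (hN : Odd (Fintype.card R)) : M →+ sumZero R where
  toFun m := ⟨fun r => κ m r + ∑ s, κ m s, by
    change ∑ r, (κ m r + ∑ s, κ m s) = 0
    rw [Finset.sum_add_distrib, Finset.sum_const, Finset.card_univ, nsmul_eq_mul]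
    obtain ⟨k, hk⟩ := hN
    have h2 : (2 : ZMod 2) = 0 := by decide
    rw [hk]
    push_cast
    linear_combination (∑ s, κ m s) * h2 + (k * ∑ s, κ m s) * h2⟩
  map_zero' := by
    refine Subtype.ext (funext fun r => ?_)
    change κ 0 r + ∑ s, κ 0 s = 0
    rw [map_zero]
    simp
  map_add' := by
    intro x y
    refine Subtype.ext (funext fun r => ?_)
    change κ (x + y) r + ∑ s, κ (x + y) s = (κ x r + ∑ s, κ x s) + (κ y r + ∑ s, κ y s)
    rw [map_add]
    simp only [Pi.add_apply, Finset.sum_add_distrib]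
    ring

variable {κ : M →+ (R → ZMod 2)} {D : M} (hN : Odd (Fintype.card R))

lemma k1_apply (m : M) (r : R) : (k1 κ hN m : R → ZMod 2) r = κ m r + ∑ s, κ m s := rfl

lemma k1_two (hR : Red κ D) (m : M) : k1 κ hN ((2 : ℤ_[2]) • m) = 0 := by
  have h := (hR.zero_iff ((2 : ℤ_[2]) • m)).2 ⟨m, rfl⟩
  refine Subtype.ext (funext fun r => ?_)
  rw [k1_apply, h]
  simp

lemma k1_D (hR : Red κ D) : k1 κ hN D = 0 := by
  refine Subtype.ext (funext fun r => ?_)
  rw [k1_apply, hR.one]
  have h1 : ∑ s, κ D s = ((Fintype.card R : ℕ) : ZMod 2) := by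
    rw [Finset.sum_congr rfl fun s _ => hR.one s, Finset.sum_const, Finset.card_univ, nsmul_eq_mul,
      mul_one]
  rw [h1]
  obtain ⟨k, hk⟩ := hN
  have h2 : (2 : ZMod 2) = 0 := by decide
  rw [hk]
  push_cast
  change (1 : ZMod 2) + (2 * k + 1) = 0
  linear_combination (1 + (k : ZMod 2)) * h2

/-- the corrected values, as a semilinear map -/
noncomputable def k2 (hR : Red κ D) : M →ₛₗ[(PadicInt.toZMod : ℤ_[2] →+* ZMod 2)] sumZero R where
  toFun m := k1 κ hN m
  map_add' := map_add (k1 κ hN)
  map_smul' := by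
    intro c m
    have h1 := PadicInt.toZMod_spec c
    rw [PadicInt.maximalIdeal_eq_span_p, Ideal.mem_span_singleton] at h1
    obtain ⟨q, hq⟩ := h1
    have h2 : c = (2 : ℤ_[2]) * q + (((PadicInt.toZMod c : ZMod 2).val : ℕ) : ℤ_[2]) := by
      rw [ZMod.natCast_val]
      have h3 : c = (c - (ZMod.cast (PadicInt.toZMod c : ZMod 2) : ℤ_[2])) +
        (ZMod.cast (PadicInt.toZMod c : ZMod 2) : ℤ_[2]) := by ring
      rw [hq] at h3
      exact_mod_cast h3
    have h4 : c • m = (2 : ℤ_[2]) • (q • m) + (PadicInt.toZMod c : ZMod 2).val • m := by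
      conv_lhs => rw [h2]
      rw [add_smul, mul_smul, Nat.cast_smul_eq_nsmul]
    rw [h4, map_add, k1_two hN hR, zero_add, map_nsmul, ← Nat.cast_smul_eq_nsmul (ZMod 2),
      ZMod.natCast_zmod_val]

lemma k2_apply (hR : Red κ D) (m : M) : k2 hN hR m = k1 κ hN m := rfl

end

/-- JOB KPR -/
theorem main : S_KPR := by
  intro R M _ _ _ κ D hR hN
  have hle : Submodule.span ℤ_[2] {D} ≤ LinearMap.ker (k2 hN hR) := by
    rw [Submodule.span_singleton_le_iff_mem, LinearMap.mem_ker, k2_apply, k1_D hN hR]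
  refine ⟨(Submodule.liftQ _ (k2 hN hR) hle).toAddMonoidHom, fun m r => rfl, ?_, ?_⟩
  · intro x
    obtain ⟨m, rfl⟩ := Submodule.Quotient.mk_surjective _ x
    change k1 κ hN m = 0 ↔ _
    constructor
    · intro h
      have h1 : ∀ r, κ m r = ∑ s, κ m s := by
        intro r
        have h2 := congrFun (congrArg Subtype.val h) r
        rw [k1_apply] at h2
        change κ m r + ∑ s, κ m s = 0 at h2
        have h3 : ∀ a b : ZMod 2, a + b = 0 → a = b := by decide
        exact h3 _ _ h2
      have h4 : ∀ a : ZMod 2, a = 0 ∨ a = 1 := by decide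
      rcases h4 (∑ s, κ m s) with h5 | h5
      · have h6 : κ m = 0 := by
          funext r
          rw [h1 r, h5]
          rfl
        obtain ⟨y, hy⟩ := (hR.zero_iff m).1 h6
        exact ⟨Submodule.Quotient.mk y, by rw [hy, Submodule.Quotient.mk_smul]⟩
      · have h6 : κ (m - D) = 0 := by
          rw [map_sub]
          funext r
          rw [Pi.sub_apply, h1 r, h5, hR.one, sub_self]
          rfl
        obtain ⟨y, hy⟩ := (hR.zero_iff _).1 h6
        refine ⟨Submodule.Quotient.mk y, ?_⟩
        rw [← Submodule.Quotient.mk_smul, Submodule.Quotient.eq, ← hy]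
        have h7 : m - (m - D) = D := by abel
        rw [h7]
        exact Submodule.mem_span_singleton_self D
    · rintro ⟨y, hy⟩
      obtain ⟨y', rfl⟩ := Submodule.Quotient.mk_surjective _ y
      rw [← Submodule.Quotient.mk_smul, Submodule.Quotient.eq] at hy
      have h1 := hle hy
      rw [LinearMap.mem_ker, k2_apply, map_sub, k1_two hN hR, sub_zero] at h1
      exact h1
  · intro A π hA hT x r
    obtain ⟨m, rfl⟩ := Submodule.Quotient.mk_surjective _ x
    rw [Submodule.mapQ_apply]
    change κ (A m) (π r) + ∑ s, κ (A m) s = κ m r + ∑ s, κ m s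
    rw [hT, ← Equiv.sum_comp π (fun s => κ (A m) s)]
    congr 1
    exact Finset.sum_congr rfl fun s _ => hT m s

end Pool.Agent.Q68.EM.Kpr
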