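import Pool.Agent.Q45.EM.StmB

/-!
# Project EM (helper45), job LSN: the symmetric group is large
-/

set_option autoImplicit false
set_option linter.all false

open scoped Classical
open Module

namespace Pool.Agent.Q68.EM.Lsn

open Pool.Agent.Q45.EM Pool.Agent.Q45.OI

lemma dbl (a : ZMod 2) : a + a = 0 := by
  revert a
  decide

lemma z2 : ∀ a : ZMod 2, a = 0 ∨ a = 1 := by decide

lemma vdbl {V : Type} [AddCommGroup V] [Module (ZMod 2) V] (x : V) : x + x = 0 := by
  have h2 : (2 : ZMod 2) = 0 := by decide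
  rw [← two_smul (ZMod 2) x, h2, zero_smul]

lemma eq_of_add {V : Type} [AddCommGroup V] [Module (ZMod 2) V] {x y : V} (h : x + y = 0) : x = y := by
  have h1 : x + y + y = y := by rw [h, zero_add]
  rw [add_assoc, vdbl, add_zero] at h1
  exact h1

section V

variable {R : Type} [Fintype R]

/-- the difference of two unit vectors -/
noncomputable def ev (i j : R) : sumZero R :=
  ⟨fun r => (if r = i then 1 else 0) + (if r = j then 1 else 0), by
    change ∑ r, ((if r = i then (1 : ZMod 2) else 0) + (if r = j then 1 else 0)) = 0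
    rw [Finset.sum_add_distrib, Finset.sum_ite_eq' Finset.univ i, Finset.sum_ite_eq' Finset.univ j,
      if_pos (Finset.mem_univ _), if_pos (Finset.mem_univ _)]
    exact dbl 1⟩

lemma ev_apply (i j r : R) :
    (ev i j : R → ZMod 2) r = (if r = i then 1 else 0) + (if r = j then 1 else 0) := rfl

lemma ev_comm (i j : R) : ev i j = ev j i := Subtype.ext (funext fun r => add_comm _ _)

lemma ev_self (i : R) : ev i i = 0 := Subtype.ext (funext fun r => dbl _)

lemma ev_add (i j k : R) : ev i j + ev j k = ev i k := by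
  refine Subtype.ext (funext fun r => ?_)
  change ((if r = i then (1 : ZMod 2) else 0) + (if r = j then 1 else 0)) +
    ((if r = j then 1 else 0) + (if r = k then 1 else 0)) =
    (if r = i then 1 else 0) + (if r = k then 1 else 0)
  linear_combination dbl (if r = j then (1 : ZMod 2) else 0)

lemma ev_left {i j : R} (h : i ≠ j) : (ev i j : R → ZMod 2) i = 1 := by
  rw [ev_apply, if_pos rfl, if_neg h, add_zero]

lemma ev_right {i j : R} (h : i ≠ j) : (ev i j : R → ZMod 2) j = 1 := by
  rw [ev_apply, if_pos rfl, if_neg h.symm, zero_add]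

lemma ev_other {i j r : R} (hi : r ≠ i) (hj : r ≠ j) : (ev i j : R → ZMod 2) r = 0 := by
  rw [ev_apply, if_neg hi, if_neg hj, add_zero]

lemma sum0 (v : sumZero R) : ∑ r, (v : R → ZMod 2) r = 0 := v.2

lemma add_val (v w : sumZero R) (r : R) :
    ((v + w : sumZero R) : R → ZMod 2) r = (v : R → ZMod 2) r + (w : R → ZMod 2) r := rfl

lemma smul_val (c : ZMod 2) (w : sumZero R) (r : R) :
    ((c • w : sumZero R) : R → ZMod 2) r = c * (w : R → ZMod 2) r := rfl

lemma zero_val (r : R) : ((0 : sumZero R) : R → ZMod 2) r = 0 := rfl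

lemma sum_val {ι : Type} (s : Finset ι) (F : ι → sumZero R) (r : R) :
    ((∑ i ∈ s, F i : sumZero R) : R → ZMod 2) r = ∑ i ∈ s, (F i : R → ZMod 2) r := by
  rw [AddSubmonoidClass.coe_finset_sum, Finset.sum_apply]

lemma expand (r0 : R) (v : sumZero R) : v = ∑ r, (v : R → ZMod 2) r • ev r r0 := by
  refine Subtype.ext (funext fun s => ?_)
  rw [sum_val]
  have h1 : ∀ r, (((v : R → ZMod 2) r • ev r r0 : sumZero R) : R → ZMod 2) s =
      (if s = r then (v : R → ZMod 2) r else 0) + (v : R → ZMod 2) r * (if s = r0 then 1 else 0) := by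
    intro r
    rw [smul_val, ev_apply, mul_add, mul_ite, mul_one, mul_zero]
  rw [Finset.sum_congr rfl fun r _ => h1 r, Finset.sum_add_distrib, Finset.sum_ite_eq,
    if_pos (Finset.mem_univ _), ← Finset.sum_mul, sum0, zero_mul, add_zero]

lemma ind (r0 : R) {q : sumZero R → Prop} (h0 : q 0) (hadd : ∀ v w, q v → q w → q (v + w))
    (hev : ∀ r, r ≠ r0 → q (ev r r0)) (v : sumZero R) : q v := by
  rw [expand r0 v]
  refine Finset.sum_induction _ q hadd h0 fun r _ => ?_
  rcases z2 ((v : R → ZMod 2) r) with h | h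
  · rw [h, zero_smul]
    exact h0
  · rw [h, one_smul]
    by_cases hr : r = r0
    · rw [hr, ev_self]
      exact h0
    · exact hev r hr

/-- the action of a permutation -/
noncomputable def pm (π : Equiv.Perm R) (v : sumZero R) : sumZero R :=
  ⟨fun r => (v : R → ZMod 2) (π.symm r), by
    change ∑ r, (v : R → ZMod 2) (π.symm r) = 0
    rw [Equiv.sum_comp π.symm (fun r => (v : R → ZMod 2) r)]
    exact v.2⟩

lemma pm_val (π : Equiv.Perm R) (v : sumZero R) (r : R) :
    (pm π v : R → ZMod 2) r = (v : R → ZMod 2) (π.symm r) := rfl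

lemma pm_val' (π : Equiv.Perm R) (v : sumZero R) (r : R) :
    (pm π v : R → ZMod 2) (π r) = (v : R → ZMod 2) r := by
  rw [pm_val, Equiv.symm_apply_apply]

lemma pm_ev (π : Equiv.Perm R) (i j : R) : pm π (ev i j) = ev (π i) (π j) := by
  refine Subtype.ext (funext fun r => ?_)
  rw [pm_val, ev_apply, ev_apply]
  simp only [Equiv.symm_apply_eq]

lemma pm_swap {i j : R} (hij : i ≠ j) (x : sumZero R) :
    pm (Equiv.swap i j) x = x + ((x : R → ZMod 2) i + (x : R → ZMod 2) j) • ev i j := by
  refine Subtype.ext (funext fun r => ?_)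
  rw [pm_val, Equiv.symm_swap, add_val, smul_val]
  by_cases hi : r = i
  · subst hi
    rw [Equiv.swap_apply_left, ev_left hij]
    linear_combination -dbl ((x : R → ZMod 2) r)
  · by_cases hj : r = j
    · subst hj
      rw [Equiv.swap_apply_right, ev_right hij]
      linear_combination -dbl ((x : R → ZMod 2) r)
    · rw [Equiv.swap_apply_of_ne_of_ne hi hj, ev_other hi hj, mul_zero, add_zero]

lemma pm_mul (π τ : Equiv.Perm R) (v : sumZero R) : pm (π * τ) v = pm π (pm τ v) := rfl

lemma fresh (s : Finset R) (hs : s.card < Fintype.card R) : ∃ m, m ∉ s := by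
  by_contra h
  push Not at h
  have h1 : s = Finset.univ := Finset.eq_univ_of_forall h
  rw [h1, Finset.card_univ] at hs
  exact lt_irrefl _ hs

lemma const_zero (hodd : Odd (Fintype.card R)) {u : sumZero R}
    (h : ∀ r s, (u : R → ZMod 2) r = (u : R → ZMod 2) s) : u = 0 := by
  refine Subtype.ext (funext fun r => ?_)
  rw [zero_val]
  have h1 := sum0 u
  rw [Finset.sum_congr rfl fun s _ => h s r, Finset.sum_const, Finset.card_univ, nsmul_eq_mul] at h1
  obtain ⟨k, hk⟩ := hodd
  have h2 : (2 : ZMod 2) = 0 := by decide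
  rw [hk] at h1
  push_cast at h1
  linear_combination h1 - (k * (u : R → ZMod 2) r) * h2

/-- the scalar endomorphisms -/
lemma scalar (h5 : 5 ≤ Fintype.card R) {A : sumZero R →ₗ[ZMod 2] sumZero R}
    (h : ∀ i j, i ≠ j → A (ev i j) = 0 ∨ A (ev i j) = ev i j) : A = 0 ∨ A = 1 := by
  obtain ⟨r0, -⟩ := fresh (∅ : Finset R) (by rw [Finset.card_empty]; omega)
  obtain ⟨r1, hr1⟩ := fresh ({r0} : Finset R) (by rw [Finset.card_singleton]; omega)
  rw [Finset.mem_singleton] at hr1
  have h01 : (0 : ZMod 2) ≠ 1 := by decide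
  rcases h r1 r0 hr1 with ha | ha
  · left
    refine LinearMap.ext fun v => ?_
    refine ind r0 (q := fun v => A v = (0 : sumZero R →ₗ[ZMod 2] sumZero R) v) ?_ ?_ ?_ v
    · rw [map_zero, map_zero]
    · intro v w hv hw
      rw [map_add, map_add, hv, hw]
    · intro r hr
      rw [LinearMap.zero_apply]
      by_cases hrr : r = r1
      · rw [hrr, ha]
      rcases h r r0 hr with hb | hb
      · exact hb
      · exfalso
        have h1 : A (ev r r1) = ev r r0 := by
          rw [← ev_add r r0 r1, map_add, hb, ev_comm r0 r1, ha, add_zero]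
        rcases h r r1 hrr with hc | hc
        · rw [h1] at hc
          have := congrFun (congrArg Subtype.val hc) r
          rw [ev_left hr, zero_val] at this
          exact h01 this.symm
        · rw [h1] at hc
          have := congrFun (congrArg Subtype.val hc) r0
          rw [ev_right hr, ev_other (Ne.symm hr) (Ne.symm hr1)] at this
          exact h01 this.symm
  · right
    refine LinearMap.ext fun v => ?_
    refine ind r0 (q := fun v => A v = (1 : sumZero R →ₗ[ZMod 2] sumZero R) v) ?_ ?_ ?_ v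
    · rw [map_zero, map_zero]
    · intro v w hv hw
      rw [map_add, map_add, hv, hw]
    · intro r hr
      change A (ev r r0) = ev r r0
      by_cases hrr : r = r1
      · rw [hrr, ha]
      rcases h r r0 hr with hb | hb
      · exfalso
        have h1 : A (ev r r1) = ev r1 r0 := by
          rw [← ev_add r r0 r1, map_add, hb, ev_comm r0 r1, ha, zero_add]
        rcases h r r1 hrr with hc | hc
        · rw [h1] at hc
          have := congrFun (congrArg Subtype.val hc) r0
          rw [ev_right hr1, zero_val] at this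
          exact h01 this.symm
        · rw [h1] at hc
          have := congrFun (congrArg Subtype.val hc) r
          rw [ev_other hrr hr, ev_left hrr] at this
          exact h01 this
      · exact hb

/-- irreducibility -/
theorem irr (hodd : Odd (Fintype.card R)) (U : Submodule (ZMod 2) (sumZero R))
    (hU : ∀ π : Equiv.Perm R, ∀ v ∈ U, pm π v ∈ U) : U = ⊥ ∨ U = ⊤ := by
  by_cases h : ∃ u ∈ U, u ≠ 0
  · right
    obtain ⟨u, hu, hu0⟩ := h
    have h1 : ∃ i j, (u : R → ZMod 2) i ≠ (u : R → ZMod 2) j := by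
      by_contra hno
      push Not at hno
      exact hu0 (const_zero hodd hno)
    obtain ⟨i, j, hij⟩ := h1
    have hne : i ≠ j := by
      rintro rfl
      exact hij rfl
    have hev : ev i j ∈ U := by
      have h2 := U.add_mem hu (hU (Equiv.swap i j) u hu)
      rw [pm_swap hne, ← add_assoc, vdbl, zero_add] at h2
      have h3 : ∀ a b : ZMod 2, a ≠ b → a + b = 1 := by decide
      rw [h3 _ _ hij, one_smul] at h2
      exact h2
    have hall : ∀ a b : R, ev a b ∈ U := by
      intro a b
      by_cases hab : a = b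
      · rw [hab, ev_self]
        exact U.zero_mem
      · obtain ⟨π, hπ⟩ := Equiv.Perm.exists_extending_pair ![i, j] ![a, b]
          (by
            intro x y hxy
            fin_cases x <;> fin_cases y <;> simp_all)
          (by
            intro x y hxy
            fin_cases x <;> fin_cases y <;> simp_all)
        have h2 := hU π _ hev
        rw [pm_ev] at h2
        have e1 : π i = a := hπ 0
        have e2 : π j = b := hπ 1
        rwa [e1, e2] at h2
    rw [eq_top_iff]
    intro v _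
    refine ind i (q := fun v => v ∈ U) U.zero_mem (fun v w hv hw => U.add_mem hv hw) (fun r _ => hall r i) v
  · left
    push Not at h
    rw [Submodule.eq_bot_iff]
    exact h

/-- endomorphisms which commute with squares -/
theorem scal (hodd : Odd (Fintype.card R)) (h5 : 5 ≤ Fintype.card R)
    (A : sumZero R →ₗ[ZMod 2] sumZero R)
    (hA : ∀ (τ : Equiv.Perm R) (v : sumZero R), A (pm (τ * τ) v) = pm (τ * τ) (A v)) :
    A = 0 ∨ A = 1 := by
  refine scalar h5 fun i j hij => ?_
  obtain ⟨w, hw⟩ : ∃ w, w = A (ev i j) := ⟨_, rfl⟩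
  have hfix : ∀ τ : Equiv.Perm R, ev ((τ * τ) i) ((τ * τ) j) = ev i j →
      ∀ r, (w : R → ZMod 2) ((τ * τ) r) = (w : R → ZMod 2) r := by
    intro τ hτ r
    have h1 := hA τ (ev i j)
    rw [pm_ev, hτ, ← hw] at h1
    conv_lhs => rw [h1]
    exact pm_val' _ _ _
  -- constant on the other letters
  have hoth : ∀ k l, k ≠ i → k ≠ j → l ≠ i → l ≠ j → (w : R → ZMod 2) k = (w : R → ZMod 2) l := by
    intro k l hki hkj hli hlj
    by_cases hkl : k = l
    · rw [hkl]
    obtain ⟨m, hm⟩ := fresh ({i, j, k, l} : Finset R) (lt_of_le_of_lt Finset.card_le_four (by omega))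
    simp only [Finset.mem_insert, Finset.mem_singleton, not_or] at hm
    obtain ⟨hmi, hmj, hmk, hml⟩ := hm
    obtain ⟨τ, hτ⟩ : ∃ τ : Equiv.Perm R, τ = Equiv.swap k l * Equiv.swap l m := ⟨_, rfl⟩
    have ti : τ i = i := by
      rw [hτ, Equiv.Perm.mul_apply, Equiv.swap_apply_of_ne_of_ne (Ne.symm hli) (Ne.symm hmi),
        Equiv.swap_apply_of_ne_of_ne (Ne.symm hki) (Ne.symm hli)]
    have tj : τ j = j := by
      rw [hτ, Equiv.Perm.mul_apply, Equiv.swap_apply_of_ne_of_ne (Ne.symm hlj) (Ne.symm hmj),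
        Equiv.swap_apply_of_ne_of_ne (Ne.symm hkj) (Ne.symm hlj)]
    have tk : τ k = l := by
      rw [hτ, Equiv.Perm.mul_apply, Equiv.swap_apply_of_ne_of_ne hkl (Ne.symm hmk),
        Equiv.swap_apply_left]
    have tl : τ l = m := by
      rw [hτ, Equiv.Perm.mul_apply, Equiv.swap_apply_left, Equiv.swap_apply_of_ne_of_ne hmk hml]
    have tm : τ m = k := by
      rw [hτ, Equiv.Perm.mul_apply, Equiv.swap_apply_right, Equiv.swap_apply_right]
    have hf := hfix τ (by rw [Equiv.Perm.mul_apply, Equiv.Perm.mul_apply, ti, ti, tj, tj])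
    have h1 := hf k
    have h2 := hf m
    rw [Equiv.Perm.mul_apply, tk, tl] at h1
    rw [Equiv.Perm.mul_apply, tm, tk] at h2
    rw [← h1, ← h2]
  -- equal values at `i` and `j`
  have hwij : (w : R → ZMod 2) i = (w : R → ZMod 2) j := by
    obtain ⟨k, hk⟩ := fresh ({i, j} : Finset R) (lt_of_le_of_lt Finset.card_le_two (by omega))
    simp only [Finset.mem_insert, Finset.mem_singleton, not_or] at hk
    obtain ⟨l, hl⟩ := fresh ({i, j, k} : Finset R) (lt_of_le_of_lt Finset.card_le_three (by omega))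
    simp only [Finset.mem_insert, Finset.mem_singleton, not_or] at hl
    obtain ⟨hki, hkj⟩ := hk
    obtain ⟨hli, hlj, hlk⟩ := hl
    obtain ⟨τ, hτ⟩ : ∃ τ : Equiv.Perm R, τ = Equiv.swap i k * (Equiv.swap k j * Equiv.swap j l) :=
      ⟨_, rfl⟩
    have ti : τ i = k := by
      rw [hτ, Equiv.Perm.mul_apply, Equiv.Perm.mul_apply,
        Equiv.swap_apply_of_ne_of_ne hij (Ne.symm hli),
        Equiv.swap_apply_of_ne_of_ne (Ne.symm hki) hij, Equiv.swap_apply_left]
    have tk : τ k = j := by
      rw [hτ, Equiv.Perm.mul_apply, Equiv.Perm.mul_apply,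
        Equiv.swap_apply_of_ne_of_ne hkj (Ne.symm hlk), Equiv.swap_apply_left,
        Equiv.swap_apply_of_ne_of_ne (Ne.symm hij) (Ne.symm hkj)]
    have tj : τ j = l := by
      rw [hτ, Equiv.Perm.mul_apply, Equiv.Perm.mul_apply, Equiv.swap_apply_left,
        Equiv.swap_apply_of_ne_of_ne hlk hlj, Equiv.swap_apply_of_ne_of_ne hli hlk]
    have tl : τ l = i := by
      rw [hτ, Equiv.Perm.mul_apply, Equiv.Perm.mul_apply, Equiv.swap_apply_right,
        Equiv.swap_apply_right, Equiv.swap_apply_right]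
    have hf := hfix τ (by
      rw [Equiv.Perm.mul_apply, Equiv.Perm.mul_apply, ti, tk, tj, tl]
      exact ev_comm j i)
    have h1 := hf i
    rw [Equiv.Perm.mul_apply, ti, tk] at h1
    exact h1.symm
  obtain ⟨k, hk⟩ := fresh ({i, j} : Finset R) (lt_of_le_of_lt Finset.card_le_two (by omega))
  simp only [Finset.mem_insert, Finset.mem_singleton, not_or] at hk
  obtain ⟨hki, hkj⟩ := hk
  have hc : w + ((w : R → ZMod 2) i + (w : R → ZMod 2) k) • ev i j = 0 := by
    refine const_zero hodd ?_
    have hall : ∀ r, ((w + ((w : R → ZMod 2) i + (w : R → ZMod 2) k) • ev i j : sumZero R) :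
        R → ZMod 2) r = (w : R → ZMod 2) k := by
      intro r
      rw [add_val, smul_val]
      by_cases hi : r = i
      · rw [hi, ev_left hij]
        linear_combination dbl ((w : R → ZMod 2) i)
      · by_cases hj : r = j
        · rw [hj, ev_right hij, ← hwij]
          linear_combination dbl ((w : R → ZMod 2) i)
        · rw [ev_other hi hj, mul_zero, add_zero]
          exact hoth r k hi hj hki hkj
    intro r s
    rw [hall, hall]
  have hw2 := eq_of_add hc
  rw [← hw, hw2]
  rcases z2 ((w : R → ZMod 2) i + (w : R → ZMod 2) k) with h | h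
  · left
    rw [h, zero_smul]
  · right
    rw [h, one_smul]


lemma perm2 {i j a b : R} (hij : i ≠ j) (hab : a ≠ b) : ∃ π : Equiv.Perm R, π i = a ∧ π j = b := by
  obtain ⟨π, hπ⟩ := Equiv.Perm.exists_extending_pair ![i, j] ![a, b]
    (by
      intro x y hxy
      fin_cases x <;> fin_cases y <;> simp_all)
    (by
      intro x y hxy
      fin_cases x <;> fin_cases y <;> simp_all)
  exact ⟨π, hπ 0, hπ 1⟩

lemma inj3 {i j k : R} (hij : i ≠ j) (hik : i ≠ k) (hjk : j ≠ k) :
    Function.Injective ![i, j, k] := by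
  have h1 := hij.symm
  have h2 := hik.symm
  have h3 := hjk.symm
  intro x y hxy
  fin_cases x <;> fin_cases y <;> simp_all

lemma inj4 {i j k l : R} (hij : i ≠ j) (hik : i ≠ k) (hil : i ≠ l) (hjk : j ≠ k) (hjl : j ≠ l)
    (hkl : k ≠ l) : Function.Injective ![i, j, k, l] := by
  have h1 := hij.symm
  have h2 := hik.symm
  have h3 := hjk.symm
  have h4 := hil.symm
  have h5 := hjl.symm
  have h6 := hkl.symm
  intro x y hxy
  fin_cases x <;> fin_cases y <;> simp_all

lemma perm3 {i j k a b c : R} (hij : i ≠ j) (hik : i ≠ k) (hjk : j ≠ k) (hab : a ≠ b) (hac : a ≠ c)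
    (hbc : b ≠ c) : ∃ π : Equiv.Perm R, π i = a ∧ π j = b ∧ π k = c := by
  obtain ⟨π, hπ⟩ := Equiv.Perm.exists_extending_pair ![i, j, k] ![a, b, c] (inj3 hij hik hjk)
    (inj3 hab hac hbc)
  exact ⟨π, hπ 0, hπ 1, hπ 2⟩

lemma perm4 {i j k l a b c d : R} (hij : i ≠ j) (hik : i ≠ k) (hil : i ≠ l) (hjk : j ≠ k) (hjl : j ≠ l)
    (hkl : k ≠ l) (hab : a ≠ b) (hac : a ≠ c) (had : a ≠ d) (hbc : b ≠ c) (hbd : b ≠ d) (hcd : c ≠ d) :
    ∃ π : Equiv.Perm R, π i = a ∧ π j = b ∧ π k = c ∧ π l = d := by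
  obtain ⟨π, hπ⟩ := Equiv.Perm.exists_extending_pair ![i, j, k, l] ![a, b, c, d]
    (inj4 hij hik hil hjk hjl hkl) (inj4 hab hac had hbc hbd hcd)
  exact ⟨π, hπ 0, hπ 1, hπ 2, hπ 3⟩

/-- the dot product -/
noncomputable def dot (v w : sumZero R) : ZMod 2 := ∑ t, (v : R → ZMod 2) t * (w : R → ZMod 2) t

lemma dot_comm (v w : sumZero R) : dot v w = dot w v :=
  Finset.sum_congr rfl fun _ _ => mul_comm _ _

lemma dot_add (v w x : sumZero R) : dot v (w + x) = dot v w + dot v x := by
  unfold dot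
  rw [← Finset.sum_add_distrib]
  exact Finset.sum_congr rfl fun t _ => by rw [add_val, mul_add]

lemma add_dot (v w x : sumZero R) : dot (v + w) x = dot v x + dot w x := by
  rw [dot_comm, dot_add, dot_comm x v, dot_comm x w]

lemma dot_zero (v : sumZero R) : dot v 0 = 0 :=
  Finset.sum_eq_zero fun t _ => by rw [zero_val, mul_zero]

lemma zero_dot (v : sumZero R) : dot 0 v = 0 := by rw [dot_comm, dot_zero]

lemma ev_dot (i j : R) (w : sumZero R) : dot (ev i j) w = (w : R → ZMod 2) i + (w : R → ZMod 2) j := by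
  unfold dot
  have h1 : ∀ t, (ev i j : R → ZMod 2) t * (w : R → ZMod 2) t =
      (if t = i then (w : R → ZMod 2) t else 0) + (if t = j then (w : R → ZMod 2) t else 0) := by
    intro t
    rw [ev_apply, add_mul, ite_mul, ite_mul, one_mul, zero_mul]
  rw [Finset.sum_congr rfl fun t _ => h1 t, Finset.sum_add_distrib, Finset.sum_ite_eq',
    Finset.sum_ite_eq', if_pos (Finset.mem_univ _), if_pos (Finset.mem_univ _)]

/-- the invariant form is the dot product -/
theorem form (h5 : 5 ≤ Fintype.card R) (β : sumZero R →ₗ[ZMod 2] sumZero R →ₗ[ZMod 2] ZMod 2)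
    (halt : ∀ v, β v v = 0) (hnd : ∀ v, (∀ w, β v w = 0) → v = 0)
    (hinv : ∀ (π : Equiv.Perm R) (v w), β (pm π v) (pm π w) = β v w) (v w : sumZero R) :
    β v w = dot v w := by
  obtain ⟨r0, -⟩ := fresh (∅ : Finset R) (by rw [Finset.card_empty]; omega)
  obtain ⟨a, ha⟩ := fresh ({r0} : Finset R) (by rw [Finset.card_singleton]; omega)
  obtain ⟨b, hb⟩ := fresh ({r0, a} : Finset R) (lt_of_le_of_lt Finset.card_le_two (by omega))
  simp only [Finset.mem_insert, Finset.mem_singleton, not_or] at ha hb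
  obtain ⟨hb0, hba⟩ := hb
  obtain ⟨c, hc⟩ : ∃ c, c = β (ev a r0) (ev b r0) := ⟨_, rfl⟩
  have hrs : ∀ r s, r ≠ r0 → s ≠ r0 → r ≠ s → β (ev r r0) (ev s r0) = c := by
    intro r s hr hs hrs
    obtain ⟨π, h1, h2, h3⟩ := perm3 (Ne.symm hba) ha hb0 hrs hr hs
    have h4 := hinv π (ev a r0) (ev b r0)
    rw [pm_ev, pm_ev, h1, h2, h3] at h4
    rw [h4, hc]
  have h01 : (0 : ZMod 2) ≠ 1 := by decide
  have key : ∀ v w : sumZero R, β v w = c * dot v w := by
    intro v w
    refine ind r0 (q := fun v => β v w = c * dot v w) ?_ ?_ ?_ v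
    · rw [map_zero, LinearMap.zero_apply, zero_dot, mul_zero]
    · intro x y hx hy
      rw [map_add, LinearMap.add_apply, hx, hy, add_dot, mul_add]
    · intro r hr
      refine ind r0 (q := fun w => β (ev r r0) w = c * dot (ev r r0) w) ?_ ?_ ?_ w
      · rw [map_zero, dot_zero, mul_zero]
      · intro x y hx hy
        rw [map_add, hx, hy, dot_add, mul_add]
      · intro s hs
        rw [ev_dot]
        by_cases h : r = s
        · rw [h, halt, ev_left hs, ev_right hs, dbl, mul_zero]
        · rw [hrs r s hr hs h, ev_right hs, ev_other h hr, zero_add, mul_one]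
  rcases z2 c with h | h
  · exfalso
    have h1 := hnd (ev a r0) (fun w => by rw [key, h, zero_mul])
    have h2 := congrFun (congrArg Subtype.val h1) a
    rw [ev_left ha, zero_val] at h2
    exact h01 h2.symm
  · rw [key, h, one_mul]

/-- the dual frame -/
noncomputable def uu (hodd : Odd (Fintype.card R)) (r : R) : sumZero R :=
  ⟨fun t => (if t = r then 1 else 0) + 1, by
    change ∑ t, ((if t = r then (1 : ZMod 2) else 0) + 1) = 0
    obtain ⟨k, hk⟩ := hodd
    have h2 : (2 : ZMod 2) = 0 := by decide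
    rw [Finset.sum_add_distrib, Finset.sum_ite_eq', if_pos (Finset.mem_univ _), Finset.sum_const,
      Finset.card_univ, nsmul_eq_mul, hk]
    push_cast
    linear_combination (k + 1 : ZMod 2) * h2⟩

lemma uu_val (hodd : Odd (Fintype.card R)) (r t : R) :
    (uu hodd r : R → ZMod 2) t = (if t = r then 1 else 0) + 1 := rfl

lemma dot_uu (hodd : Odd (Fintype.card R)) (x : sumZero R) (r : R) :
    dot x (uu hodd r) = (x : R → ZMod 2) r := by
  unfold dot
  have h1 : ∀ t, (x : R → ZMod 2) t * (uu hodd r : R → ZMod 2) t =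
      (if t = r then (x : R → ZMod 2) t else 0) + (x : R → ZMod 2) t := by
    intro t
    rw [uu_val, mul_add, mul_one, mul_ite, mul_one, mul_zero]
  rw [Finset.sum_congr rfl fun t _ => h1 t, Finset.sum_add_distrib, Finset.sum_ite_eq',
    if_pos (Finset.mem_univ _), sum0, add_zero]

lemma expand_uu (hodd : Odd (Fintype.card R)) (x : sumZero R) :
    x = ∑ r, (x : R → ZMod 2) r • uu hodd r := by
  refine Subtype.ext (funext fun s => ?_)
  rw [sum_val]
  have h1 : ∀ r, (((x : R → ZMod 2) r • uu hodd r : sumZero R) : R → ZMod 2) s =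
      (if s = r then (x : R → ZMod 2) r else 0) + (x : R → ZMod 2) r := by
    intro r
    rw [smul_val, uu_val, mul_add, mul_one, mul_ite, mul_one, mul_zero]
  rw [Finset.sum_congr rfl fun t _ => h1 t, Finset.sum_add_distrib, Finset.sum_ite_eq,
    if_pos (Finset.mem_univ _), sum0, add_zero]

/-- the elementary skew endomorphisms -/
noncomputable def T (β : sumZero R →ₗ[ZMod 2] sumZero R →ₗ[ZMod 2] ZMod 2) (v w : sumZero R) :
    sumZero R →ₗ[ZMod 2] sumZero R :=
  (β.flip w).smulRight v + (β.flip v).smulRight w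

section T

variable (β : sumZero R →ₗ[ZMod 2] sumZero R →ₗ[ZMod 2] ZMod 2)

lemma T_apply (v w x : sumZero R) : T β v w x = β x w • v + β x v • w := rfl

lemma T_comm (v w : sumZero R) : T β v w = T β w v := add_comm _ _

lemma T_add (v w w' : sumZero R) : T β v (w + w') = T β v w + T β v w' := by
  refine LinearMap.ext fun x => ?_
  rw [LinearMap.add_apply, T_apply, T_apply, T_apply, map_add, add_smul, smul_add]
  abel

lemma add_T (v v' w : sumZero R) : T β (v + v') w = T β v w + T β v' w := by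
  rw [T_comm, T_add, T_comm β w v, T_comm β w v']

lemma T_self (v : sumZero R) : T β v v = 0 := LinearMap.ext fun x => vdbl _

lemma T_zero (v : sumZero R) : T β v 0 = 0 := by
  refine LinearMap.ext fun x => ?_
  rw [T_apply, map_zero, zero_smul, smul_zero, add_zero, LinearMap.zero_apply]

lemma zero_T (v : sumZero R) : T β 0 v = 0 := by rw [T_comm, T_zero]

lemma pm_add (π : Equiv.Perm R) (v w : sumZero R) : pm π (v + w) = pm π v + pm π w := rfl

lemma pm_smul (π : Equiv.Perm R) (c : ZMod 2) (v : sumZero R) : pm π (c • v) = c • pm π v := rfl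

lemma T_pm (hinv : ∀ (π : Equiv.Perm R) (v w), β (pm π v) (pm π w) = β v w) (π : Equiv.Perm R)
    (v w x : sumZero R) : T β (pm π v) (pm π w) (pm π x) = pm π (T β v w x) := by
  rw [T_apply, T_apply, hinv, hinv, pm_add, pm_smul, pm_smul]

variable {β}

lemma skew_symm {A : sumZero R →ₗ[ZMod 2] sumZero R} (hA : A ∈ skewEnd β) (x y : sumZero R) :
    β (A x) y = β (A y) x := by
  have h1 : β (A (x + y)) (x + y) = 0 := hA (x + y)
  have h2 : β (A x) x = 0 := hA x
  have h3 : β (A y) y = 0 := hA y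
  have h4 : β (A (x + y)) (x + y) = β (A x) x + β (A y) x + (β (A x) y + β (A y) y) := by
    rw [map_add A, map_add β, map_add, LinearMap.add_apply, LinearMap.add_apply]
  rw [h4, h2, h3, zero_add, add_zero] at h1
  linear_combination h1 - dbl (β (A y) x)

/-- the commutator with a transposition -/
lemma comm_mem (hβ : ∀ v w, β v w = dot v w)
    {U : Submodule (ZMod 2) (sumZero R →ₗ[ZMod 2] sumZero R)} (hUs : U ≤ skewEnd β)
    (hU : ∀ π : Equiv.Perm R, ∀ A ∈ U, ∀ A' : sumZero R →ₗ[ZMod 2] sumZero R,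
      (∀ v, A' (pm π v) = pm π (A v)) → A' ∈ U)
    {A : sumZero R →ₗ[ZMod 2] sumZero R} (hA : A ∈ U) {i j : R} (hij : i ≠ j) :
    T β (ev i j) (A (ev i j)) ∈ U := by
  have hsym : ∀ v w, β v w = β w v := fun v w => by rw [hβ, hβ, dot_comm]
  have hg : ∀ x, pm (Equiv.swap i j) x = x + β x (ev i j) • ev i j := by
    intro x
    rw [pm_swap hij, hsym, hβ, ev_dot]
  have hvv : β (ev i j) (ev i j) = 0 := by
    rw [hβ, ev_dot, ev_left hij, ev_right hij, dbl]
  have hAv : β (ev i j) (A (ev i j)) = 0 := by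
    rw [hsym]
    exact hUs hA (ev i j)
  have h1 : A + T β (ev i j) (A (ev i j)) ∈ U := by
    refine hU (Equiv.swap i j) A hA _ fun x => ?_
    have e1 : β (A x) (ev i j) = β x (A (ev i j)) := by
      rw [skew_symm (hUs hA) x (ev i j), hsym]
    rw [hg, hg, LinearMap.add_apply, map_add, map_smul, T_apply, map_add, map_smul,
      LinearMap.add_apply, LinearMap.smul_apply, LinearMap.add_apply, LinearMap.smul_apply, hAv, hvv,
      smul_eq_mul, mul_zero, add_zero, add_zero, e1]
    have e2 := vdbl (β x (ev i j) • A (ev i j))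
    calc A x + β x (ev i j) • A (ev i j) + (β x (A (ev i j)) • ev i j + β x (ev i j) • A (ev i j))
        = A x + β x (A (ev i j)) • ev i j + (β x (ev i j) • A (ev i j) + β x (ev i j) • A (ev i j)) := by
          abel
      _ = _ := by rw [e2, add_zero]
  have h2 := U.add_mem hA h1
  rwa [← add_assoc, vdbl, zero_add] at h2

/-- the elements `[v_ij, v_ab]` -/
lemma four (hodd : Odd (Fintype.card R)) (h5 : 5 ≤ Fintype.card R) (hβ : ∀ v w, β v w = dot v w)
    (hinv : ∀ (π : Equiv.Perm R) (v w), β (pm π v) (pm π w) = β v w)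
    {U : Submodule (ZMod 2) (sumZero R →ₗ[ZMod 2] sumZero R)} (hUs : U ≤ skewEnd β)
    (hU : ∀ π : Equiv.Perm R, ∀ A ∈ U, ∀ A' : sumZero R →ₗ[ZMod 2] sumZero R,
      (∀ v, A' (pm π v) = pm π (A v)) → A' ∈ U)
    {A : sumZero R →ₗ[ZMod 2] sumZero R} (hA : A ∈ U) (hns : ¬ (A = 0 ∨ A = 1)) {i' j' a' b' : R}
    (hab : i' ≠ j') (hac : i' ≠ a') (had : i' ≠ b') (hbc : j' ≠ a') (hbd : j' ≠ b') (hcd : a' ≠ b') :
    T β (ev i' j') (ev a' b') ∈ U := by
  have h01 : (0 : ZMod 2) ≠ 1 := by decide
  have hex : ∃ i j, i ≠ j ∧ A (ev i j) ≠ 0 ∧ A (ev i j) ≠ ev i j := by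
    by_contra hno
    push Not at hno
    refine hns (scalar h5 fun i j hij => ?_)
    by_cases h : A (ev i j) = 0
    · exact Or.inl h
    · exact Or.inr (hno i j hij h)
  obtain ⟨i, j, hij, hn0, hnv⟩ := hex
  have hm := comm_mem hβ hUs hU hA hij
  have hs0 : β (A (ev i j)) (ev i j) = 0 := hUs hA (ev i j)
  obtain ⟨w0, hw0⟩ : ∃ w0, w0 = A (ev i j) := ⟨_, rfl⟩
  rw [← hw0] at hn0 hnv hm hs0
  rw [hβ, dot_comm, ev_dot] at hs0
  obtain ⟨w, hw⟩ : ∃ w, w = w0 + (w0 : R → ZMod 2) i • ev i j := ⟨_, rfl⟩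
  have hwi : (w : R → ZMod 2) i = 0 := by
    rw [hw, add_val, smul_val, ev_left hij, mul_one, dbl]
  have hwj : (w : R → ZMod 2) j = 0 := by
    rw [hw, add_val, smul_val, ev_right hij, mul_one, add_comm, hs0]
  have hwm : T β (ev i j) w ∈ U := by
    rw [hw, T_add]
    refine U.add_mem hm ?_
    rcases z2 ((w0 : R → ZMod 2) i) with h | h
    · rw [h, zero_smul, T_zero]
      exact U.zero_mem
    · rw [h, one_smul, T_self]
      exact U.zero_mem
  have hwn : w ≠ 0 := by
    intro h0
    rw [hw] at h0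
    have h1 := eq_of_add h0
    rcases z2 ((w0 : R → ZMod 2) i) with h | h
    · rw [h, zero_smul] at h1
      exact hn0 h1
    · rw [h, one_smul] at h1
      exact hnv h1
  have hexa : ∃ a, (w : R → ZMod 2) a = 1 := by
    by_contra hno
    push Not at hno
    refine hwn (Subtype.ext (funext fun r => ?_))
    rcases z2 ((w : R → ZMod 2) r) with h | h
    · rw [h, zero_val]
    · exact absurd h (hno r)
  have hexb : ∃ b, b ≠ i ∧ b ≠ j ∧ (w : R → ZMod 2) b = 0 := by
    by_contra hno
    push Not at hno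
    have h1 : ∀ r, (w : R → ZMod 2) r = 1 + (ev i j : R → ZMod 2) r := by
      intro r
      by_cases hi : r = i
      · rw [hi, hwi, ev_left hij, dbl]
      · by_cases hj : r = j
        · rw [hj, hwj, ev_right hij, dbl]
        · rw [ev_other hi hj, add_zero]
          rcases z2 ((w : R → ZMod 2) r) with h | h
          · exact absurd h (hno r hi hj)
          · exact h
    have h2 := sum0 w
    rw [Finset.sum_congr rfl fun r _ => h1 r, Finset.sum_add_distrib, sum0, add_zero, Finset.sum_const,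
      Finset.card_univ, nsmul_eq_mul, mul_one] at h2
    obtain ⟨k, hk⟩ := hodd
    have h3 : (2 : ZMod 2) = 0 := by decide
    rw [hk] at h2
    push_cast at h2
    rw [h3, zero_mul, zero_add] at h2
    exact h01 h2.symm
  obtain ⟨a, ha⟩ := hexa
  obtain ⟨b, hbi, hbj, hb⟩ := hexb
  have hai : a ≠ i := by
    rintro rfl
    rw [ha] at hwi
    exact h01 hwi.symm
  have haj : a ≠ j := by
    rintro rfl
    rw [ha] at hwj
    exact h01 hwj.symm
  have hab' : a ≠ b := by
    rintro rfl
    rw [ha] at hb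
    exact h01 hb.symm
  have h1 : T β (pm (Equiv.swap a b) (ev i j)) (pm (Equiv.swap a b) w) ∈ U :=
    hU (Equiv.swap a b) _ hwm _ fun x => T_pm β hinv _ _ _ _
  rw [pm_ev, Equiv.swap_apply_of_ne_of_ne (Ne.symm hai) (Ne.symm hbi),
    Equiv.swap_apply_of_ne_of_ne (Ne.symm haj) (Ne.symm hbj), pm_swap hab', ha, hb, add_zero, one_smul,
    T_add] at h1
  have h2 := U.add_mem hwm h1
  rw [← add_assoc, vdbl, zero_add] at h2
  obtain ⟨π, e1, e2, e3, e4⟩ := perm4 hij (Ne.symm hai) (Ne.symm hbi) (Ne.symm haj) (Ne.symm hbj) hab'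
    hab hac had hbc hbd hcd
  have h3 : T β (pm π (ev i j)) (pm π (ev a b)) ∈ U := hU π _ h2 _ fun x => T_pm β hinv _ _ _ _
  rwa [pm_ev, pm_ev, e1, e2, e3, e4] at h3

lemma tri {V : Type} [AddCommGroup V] (f : R → ℕ) (hf : Function.Injective f) (F : R → R → V)
    (hF : ∀ r, F r r = 0) :
    ∑ r, ∑ s, F r s = ∑ r, ∑ s, if f r < f s then F r s + F s r else 0 := by
  have h1 : ∀ r s, (if f r < f s then F r s + F s r else 0) =
      (if f r < f s then F r s else 0) + (if f r < f s then F s r else 0) := by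
    intro r s
    split_ifs
    · rfl
    · rw [add_zero]
  have h2 : ∑ r, ∑ s, (if f r < f s then F s r else 0) = ∑ r, ∑ s, (if f s < f r then F r s else 0) :=
    Finset.sum_comm
  simp only [h1, Finset.sum_add_distrib]
  rw [h2, ← Finset.sum_add_distrib]
  refine Finset.sum_congr rfl fun r _ => ?_
  rw [← Finset.sum_add_distrib]
  refine Finset.sum_congr rfl fun s _ => ?_
  rcases lt_trichotomy (f r) (f s) with h | h | h
  · rw [if_pos h, if_neg (by omega), add_zero]
  · rw [if_neg (by omega), if_neg (by omega), hf h, hF, add_zero]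
  · rw [if_neg (by omega), if_pos h, zero_add]

/-- the elementary endomorphisms span -/
lemma span_T (hodd : Odd (Fintype.card R)) (hβ : ∀ v w, β v w = dot v w)
    {U : Submodule (ZMod 2) (sumZero R →ₗ[ZMod 2] sumZero R)} (hT : ∀ v w, T β v w ∈ U) :
    skewEnd β ≤ U := by
  intro A hA
  have hx : ∀ (x : sumZero R) (r : R), (x : R → ZMod 2) r = β x (uu hodd r) :=
    fun x r => by rw [hβ, dot_uu]
  have h0 : A = ∑ r, ∑ s, if Fintype.equivFin R r < Fintype.equivFin R s then
      β (A (uu hodd r)) (uu hodd s) • T β (uu hodd r) (uu hodd s) else 0 := by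
    refine LinearMap.ext fun x => ?_
    have h1 : A x = ∑ r, ∑ s, (β (A (uu hodd r)) (uu hodd s) * β x (uu hodd s)) • uu hodd r := by
      conv_lhs => rw [expand_uu hodd (A x)]
      refine Finset.sum_congr rfl fun r _ => ?_
      rw [← Finset.sum_smul, hx, skew_symm hA]
      congr 1
      conv_lhs => rw [expand_uu hodd x, map_sum]
      refine Finset.sum_congr rfl fun s _ => ?_
      rw [map_smul, hx, smul_eq_mul, mul_comm]
    rw [h1, tri (fun r => (Fintype.equivFin R r : ℕ))
      (fun r s h => (Fintype.equivFin R).injective (Fin.ext h)) _ ?_]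
    · rw [LinearMap.sum_apply]
      refine Finset.sum_congr rfl fun r _ => ?_
      rw [LinearMap.sum_apply]
      refine Finset.sum_congr rfl fun s _ => ?_
      by_cases h : Fintype.equivFin R r < Fintype.equivFin R s
      · rw [if_pos h, if_pos (Fin.lt_def.mp h), LinearMap.smul_apply, T_apply, smul_add, smul_smul,
          smul_smul, skew_symm hA (uu hodd s) (uu hodd r)]
      · rw [if_neg h, if_neg (fun h' => h (Fin.lt_def.mpr h')), LinearMap.zero_apply]
    · intro r
      have h2 : β (A (uu hodd r)) (uu hodd r) = 0 := hA (uu hodd r)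
      rw [h2, zero_mul, zero_smul]
  rw [h0]
  refine U.sum_mem fun r _ => U.sum_mem fun s _ => ?_
  split_ifs
  · exact U.smul_mem _ (hT _ _)
  · exact U.zero_mem

/-- the codimension is at most one -/
theorem codim (hodd : Odd (Fintype.card R)) (h5 : 5 ≤ Fintype.card R) (hβ : ∀ v w, β v w = dot v w)
    {U : Submodule (ZMod 2) (sumZero R →ₗ[ZMod 2] sumZero R)}
    (h4 : ∀ i j a b : R, i ≠ j → i ≠ a → i ≠ b → j ≠ a → j ≠ b → a ≠ b →
      T β (ev i j) (ev a b) ∈ U) :
    finrank (ZMod 2) (skewEnd β) ≤ finrank (ZMod 2) U + 1 := by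
  obtain ⟨r0, -⟩ := fresh (∅ : Finset R) (by rw [Finset.card_empty]; omega)
  obtain ⟨a, ha⟩ := fresh ({r0} : Finset R) (by rw [Finset.card_singleton]; omega)
  obtain ⟨b, hb⟩ := fresh ({r0, a} : Finset R) (lt_of_le_of_lt Finset.card_le_two (by omega))
  simp only [Finset.mem_insert, Finset.mem_singleton, not_or] at ha hb
  obtain ⟨hb0, hba⟩ := hb
  obtain ⟨t, ht⟩ : ∃ t, t = T β (ev a r0) (ev b r0) := ⟨_, rfl⟩
  obtain ⟨U', hU'⟩ : ∃ U', U' = U ⊔ Submodule.span (ZMod 2) {t} := ⟨_, rfl⟩
  have hUU : U ≤ U' := by rw [hU']; exact le_sup_left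
  have htU : t ∈ U' := by
    rw [hU']
    exact Submodule.mem_sup_right (Submodule.mem_span_singleton_self t)
  have hex : ∀ r s s', r ≠ r0 → s ≠ r0 → s' ≠ r0 → r ≠ s → r ≠ s' → s ≠ s' →
      T β (ev r r0) (ev s r0) ∈ U' → T β (ev r r0) (ev s' r0) ∈ U' := by
    intro r s s' hr hs hs' h1 h2 h3 hm
    have h5 := h4 r r0 s s' hr h1 h2 (Ne.symm hs) (Ne.symm hs') h3
    rw [← ev_add s r0 s', T_add, ev_comm r0 s'] at h5
    have h6 := U'.add_mem hm (hUU h5)
    rwa [← add_assoc, vdbl, zero_add] at h6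
  have hst1 : ∀ s, s ≠ r0 → s ≠ a → T β (ev a r0) (ev s r0) ∈ U' := by
    intro s hs hsa
    by_cases hsb : s = b
    · rw [hsb, ← ht]
      exact htU
    · exact hex a b s ha hb0 hs (Ne.symm hba) (Ne.symm hsa) (Ne.symm hsb) (by rw [← ht]; exact htU)
  have hst2 : ∀ r s, r ≠ r0 → s ≠ r0 → T β (ev r r0) (ev s r0) ∈ U' := by
    intro r s hr hs
    by_cases hrs : r = s
    · rw [hrs, T_self]
      exact U'.zero_mem
    by_cases hra : r = a
    · rw [hra] at hrs ⊢
      exact hst1 s hs (Ne.symm hrs)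
    by_cases hsa : s = a
    · rw [hsa, T_comm]
      exact hst1 r hr hra
    rw [T_comm]
    refine hex s a r hs ha hr hsa (Ne.symm hrs) (Ne.symm hra) ?_
    rw [T_comm]
    exact hst1 s hs hsa
  have hT : ∀ v w, T β v w ∈ U' := by
    intro v w
    refine ind r0 (q := fun v => T β v w ∈ U') ?_ ?_ ?_ v
    · rw [zero_T]
      exact U'.zero_mem
    · intro x y hx hy
      rw [add_T]
      exact U'.add_mem hx hy
    · intro r hr
      refine ind r0 (q := fun w => T β (ev r r0) w ∈ U') ?_ ?_ ?_ w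
      · rw [T_zero]
        exact U'.zero_mem
      · intro x y hx hy
        rw [T_add]
        exact U'.add_mem hx hy
      · intro s hs
        exact hst2 r s hr hs
  have h1 := Submodule.finrank_mono (span_T hodd hβ hT)
  have h2 : finrank (ZMod 2) U' ≤ finrank (ZMod 2) U + finrank (ZMod 2) (Submodule.span (ZMod 2) {t}) := by
    rw [hU']
    exact Submodule.finrank_add_le_finrank_add_finrank _ _
  have h3 : finrank (ZMod 2) (Submodule.span (ZMod 2) {t}) ≤ 1 := by
    refine (finrank_span_le_card _).trans ?_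
    simp
  omega

end T

theorem main : S_LSN := by
  intro R _ Γ hodd h5 hΓ
  have hg : ∀ π : Equiv.Perm R, ∃ g ∈ Γ, ∀ v, g v = pm π v := by
    intro π
    obtain ⟨g, hg, h⟩ := hΓ π
    refine ⟨g, hg, fun v => Subtype.ext (funext fun r => ?_)⟩
    have h1 := h v (π.symm r)
    rw [Equiv.apply_symm_apply] at h1
    rw [h1, pm_val]
  refine ⟨?_, ?_, ?_⟩
  · intro U hU
    refine irr hodd U fun π v hv => ?_
    obtain ⟨g, hgm, h⟩ := hg π
    rw [← h]
    exact hU g hgm v hv
  · intro Γ' hle hidx A hA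
    have hsq : ∀ g ∈ Γ, g * g ∈ Γ' := by
      intro g hgm
      have h1 : (Γ'.subgroupOf Γ).index ∣ 2 := hidx
      rcases (Nat.dvd_prime Nat.prime_two).1 h1 with h | h
      · rw [Subgroup.index_eq_one] at h
        have h2 : (⟨g * g, Γ.mul_mem hgm hgm⟩ : Γ) ∈ Γ'.subgroupOf Γ := by
          rw [h]
          exact Subgroup.mem_top _
        exact Subgroup.mem_subgroupOf.1 h2
      · have h2 := Subgroup.mul_self_mem_of_index_two h (⟨g, hgm⟩ : Γ)
        exact Subgroup.mem_subgroupOf.1 h2
    refine scal hodd h5 A fun τ v => ?_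
    obtain ⟨g, hgm, h⟩ := hg τ
    have h1 := hA (g * g) (hsq g hgm) v
    have h2 : ∀ x, (g * g) x = pm (τ * τ) x := by
      intro x
      rw [pm_mul, ← h, ← h]
      rfl
    rwa [h2, h2] at h1
  · intro β halt hnd hinv U hUs hU
    have hinv' : ∀ (π : Equiv.Perm R) (v w), β (pm π v) (pm π w) = β v w := by
      intro π v w
      obtain ⟨g, hgm, h⟩ := hg π
      rw [← h, ← h]
      exact hinv g hgm v w
    have hU' : ∀ π : Equiv.Perm R, ∀ A ∈ U, ∀ A' : sumZero R →ₗ[ZMod 2] sumZero R,
        (∀ v, A' (pm π v) = pm π (A v)) → A' ∈ U := by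
      intro π A hA A' hc
      obtain ⟨g, hgm, h⟩ := hg π
      refine hU g hgm A hA A' fun v => ?_
      rw [h, h]
      exact hc v
    have hβ := form h5 β halt hnd hinv'
    by_cases hs : ∀ A ∈ U, A = 0 ∨ A = 1
    · exact Or.inl hs
    · right
      push Not at hs
      obtain ⟨A, hA, h1, h2⟩ := hs
      refine codim hodd h5 hβ fun i j a b hij hia hib hja hjb hab => ?_
      exact four hodd h5 hβ hinv' hUs hU' hA (by tauto) hij hia hib hja hjb hab

end V

end Pool.Agent.Q68.EM.Lsn
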